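import Pool.Agent.Helper797.RotFinal

set_option autoImplicit false

namespace Pool.Agent.Results.MP_f4a04c_gt.NearBalls

open Set Pool.Agent.Helper797.Rot

open scoped Pointwise

/-- Three-dimensional space. -/
abbrev R3 : Type := Fin 3 → ℝ

/-- The rotation group `SO(3)`: real `3 × 3` matrices `ρ` with `ρ ρᵀ = 1` and `det ρ = 1`, with
the topology it has as a subset of the space of matrices. -/
abbrev SO3 : Type := Matrix.specialOrthogonalGroup (Fin 3) ℝ

/-- A convex body: a non-empty compact convex subset of `R3`. -/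
def IsConvexBody (S : Set R3) : Prop := S.Nonempty ∧ IsCompact S ∧ Convex ℝ S

/-- `(ρ, x)` is an `S`-copy in `K`: `ρ(S) + x ⊆ K`. -/
def IsCopy (S K : Set R3) (ρ : SO3) (x : R3) : Prop :=
  ∀ s ∈ S, (ρ : Matrix (Fin 3) (Fin 3) ℝ).mulVec s + x ∈ K

/-- `K` is `S`-Kakeya: for every rotation `ρ` there is `x` with `ρ(S) + x ⊆ K`. -/
def IsKakeya (S K : Set R3) : Prop := ∀ ρ : SO3, ∃ x : R3, IsCopy S K ρ x

/-- The `S`-copies `(ρ₀, x₀)` and `(ρ₁, x₁)` can be rotated into each other within `K`. -/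
def CanBeRotated (S K : Set R3) (ρ₀ : SO3) (x₀ : R3) (ρ₁ : SO3) (x₁ : R3) : Prop :=
  ∃ (γ : unitInterval → SO3) (δ : unitInterval → R3), Continuous γ ∧ Continuous δ ∧
    γ 0 = ρ₀ ∧ δ 0 = x₀ ∧ γ 1 = ρ₁ ∧ δ 1 = x₁ ∧ ∀ t, IsCopy S K (γ t) (δ t)

/-- The Kakeya rotation property of a set `S ⊆ R3`. -/
def KakeyaRotationProperty (S : Set R3) : Prop :=
  ∀ K : Set R3, IsConvexBody K → IsKakeya S K →
    ∀ (ρ₀ : SO3) (x₀ : R3) (ρ₁ : SO3) (x₁ : R3),
      IsCopy S K ρ₀ x₀ → IsCopy S K ρ₁ x₁ → CanBeRotated S K ρ₀ x₀ ρ₁ x₁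

/-- The closed Euclidean ball of radius `r` (for `0 ≤ r`) about `c`. -/
def Ball (c : R3) (r : ℝ) : Set R3 := {p | ∑ i, (p i - c i) ^ 2 ≤ r ^ 2}

/-- `S` is a union of closed Euclidean balls of radius `r`: a ball of radius `r` rolls freely
inside `S`. -/
def UnionOfBalls (r : ℝ) (S : Set R3) : Prop := ∀ p ∈ S, ∃ c : R3, p ∈ Ball c r ∧ Ball c r ⊆ S

/-- `S` is smooth: at each of its points the supporting linear functionals are positive multiples
of one another, so that through each boundary point there is only one supporting plane. -/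
def Smooth (S : Set R3) : Prop :=
  ∀ p ∈ S, ∀ u v : R3, u ≠ 0 → v ≠ 0 → (∀ s ∈ S, ∑ i, u i * s i ≤ ∑ i, u i * p i) →
    (∀ s ∈ S, ∑ i, v i * s i ≤ ∑ i, v i * p i) → ∃ t : ℝ, 0 < t ∧ v = t • u

/-! ### Balls -/

/-- the ball about the origin -/
def EB (r : ℝ) : Set R3 := {b | ∑ i, b i ^ 2 ≤ r ^ 2}

lemma Ball_zero (r : ℝ) : Ball 0 r = EB r := by
  ext b; simp [Ball, EB]

lemma EB_convex (r : ℝ) : Convex ℝ (EB r) := by
  intro x hx y hy α β hα hβ hαβ
  simp only [EB, mem_ofPred_eq, Fin.sum_univ_three, Pi.add_apply, Pi.smul_apply, smul_eq_mul]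
    at hx hy ⊢
  have e : β = 1 - α := by linarith
  have key : ∀ s t : ℝ, (α * s + β * t) ^ 2 ≤ α * s ^ 2 + β * t ^ 2 := by
    intro s t
    have h : α * s ^ 2 + β * t ^ 2 - (α * s + β * t) ^ 2 = α * β * (s - t) ^ 2 := by
      rw [e]; ring
    have h2 : 0 ≤ α * β * (s - t) ^ 2 := by positivity
    linarith
  have k0 := key (x 0) (y 0)
  have k1 := key (x 1) (y 1)
  have k2 := key (x 2) (y 2)
  have h3 := mul_le_mul_of_nonneg_left hx hα
  have h4 := mul_le_mul_of_nonneg_left hy hβ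
  have h5 : α * r ^ 2 + β * r ^ 2 = r ^ 2 := by rw [← add_mul, hαβ, one_mul]
  nlinarith

lemma EB_closed (r : ℝ) : IsClosed (EB r) := by
  unfold EB
  exact isClosed_le (by fun_prop) continuous_const

lemma EB_compact (r : ℝ) : IsCompact (EB r) := by
  have hsub : EB r ⊆ Icc (fun _ => -|r|) (fun _ => |r|) := by
    intro x hx
    simp only [EB, mem_ofPred_eq] at hx
    have h : ∀ k, |x k| ≤ |r| := by
      intro k
      apply sq_le_sq.mp
      calc x k ^ 2 ≤ ∑ i, x i ^ 2 :=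
            Finset.single_le_sum (f := fun i => x i ^ 2) (fun i _ => sq_nonneg _)
              (Finset.mem_univ k)
        _ ≤ r ^ 2 := hx
    exact ⟨fun k => (abs_le.mp (h k)).1, fun k => (abs_le.mp (h k)).2⟩
  exact isCompact_Icc.of_isClosed_subset (EB_closed r) hsub

lemma zero_mem_EB (r : ℝ) : (0 : R3) ∈ EB r := by
  simp [EB]; positivity

lemma dot_le {a b : R3} {s r : ℝ} (hs : 0 ≤ s) (hr : 0 ≤ r) (ha : a ∈ EB s) (hb : b ∈ EB r) :
    ∑ i, a i * b i ≤ s * r := by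
  have h1 : (∑ i, a i * b i) ^ 2 ≤ (∑ i, a i ^ 2) * ∑ i, b i ^ 2 :=
    Finset.sum_mul_sq_le_sq_mul_sq _ _ _
  have h2 : (∑ i, a i ^ 2) * ∑ i, b i ^ 2 ≤ s ^ 2 * r ^ 2 :=
    mul_le_mul ha hb (Finset.sum_nonneg fun i _ => sq_nonneg _) (sq_nonneg s)
  have h3 : (∑ i, a i * b i) ^ 2 ≤ (s * r) ^ 2 := by rw [mul_pow]; exact h1.trans h2
  exact (le_abs_self _).trans (abs_le_of_sq_le_sq h3 (mul_nonneg hs hr))

lemma EB_add {a b : R3} {s r : ℝ} (hs : 0 ≤ s) (hr : 0 ≤ r) (ha : a ∈ EB s) (hb : b ∈ EB r) :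
    a + b ∈ EB (r + s) := by
  have h := dot_le hs hr ha hb
  simp only [EB, mem_ofPred_eq, Fin.sum_univ_three, Pi.add_apply] at ha hb h ⊢
  nlinarith

/-! ### Rotations -/

lemma rot_transpose (ρ : SO3) (x : R3) : ρ.1.mulVec (ρ.1.transpose.mulVec x) = x := by
  have h := ρ.2
  rw [Matrix.mem_specialOrthogonalGroup_iff] at h
  have hO1 : ρ.1 * ρ.1.transpose = 1 := (Matrix.mem_orthogonalGroup_iff (Fin 3) ℝ).mp h.1
  rw [Matrix.mulVec_mulVec, hO1, Matrix.one_mulVec]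

lemma rot_EB (ρ : SO3) {r : ℝ} {x : R3} (hx : x ∈ EB r) : ρ.1.mulVec x ∈ EB r := by
  have h := ρ.2
  rw [Matrix.mem_specialOrthogonalGroup_iff] at h
  have hO2 : ρ.1.transpose * ρ.1 = 1 := (Matrix.mem_orthogonalGroup_iff' (Fin 3) ℝ).mp h.1
  have e : dotProduct (ρ.1.mulVec x) (ρ.1.mulVec x) = dotProduct x x := by
    rw [Matrix.dotProduct_mulVec, ← Matrix.mulVec_transpose, Matrix.mulVec_mulVec, hO2,
      Matrix.one_mulVec]
  have e2 : ∀ y : R3, dotProduct y y = ∑ i, y i ^ 2 := by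
    intro y; simp only [dotProduct]; exact Finset.sum_congr rfl fun i _ => (sq (y i)).symm
  rw [e2, e2] at e
  simp only [EB, mem_ofPred_eq] at hx ⊢
  rw [e]; exact hx

lemma rotT_EB (ρ : SO3) {r : ℝ} {x : R3} (hx : x ∈ EB r) : ρ.1.transpose.mulVec x ∈ EB r := by
  have h := ρ.2
  rw [Matrix.mem_specialOrthogonalGroup_iff] at h
  have hO1 : ρ.1 * ρ.1.transpose = 1 := (Matrix.mem_orthogonalGroup_iff (Fin 3) ℝ).mp h.1
  have e : dotProduct (ρ.1.transpose.mulVec x) (ρ.1.transpose.mulVec x) = dotProduct x x := by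
    rw [Matrix.dotProduct_mulVec, ← Matrix.mulVec_transpose, Matrix.mulVec_mulVec,
      Matrix.transpose_transpose, hO1, Matrix.one_mulVec]
  have e2 : ∀ y : R3, dotProduct y y = ∑ i, y i ^ 2 := by
    intro y; simp only [dotProduct]; exact Finset.sum_congr rfl fun i _ => (sq (y i)).symm
  rw [e2, e2] at e
  simp only [EB, mem_ofPred_eq] at hx ⊢
  rw [e]; exact hx

/-! ### Adding a ball -/

/-- the body `lam • A + EB r` -/
def thick (lam r : ℝ) (A : Set R3) : Set R3 := {p | ∃ a ∈ A, ∃ b ∈ EB r, p = lam • a + b}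

lemma thick_eq (lam r : ℝ) (A : Set R3) : thick lam r A = lam • A + EB r := by
  ext p
  simp only [thick, mem_ofPred_eq, Set.mem_add, Set.mem_smul_set]
  constructor
  · rintro ⟨a, ha, b, hb, rfl⟩
    exact ⟨lam • a, ⟨a, ha, rfl⟩, b, hb, rfl⟩
  · rintro ⟨_, ⟨a, ha, rfl⟩, b, hb, rfl⟩
    exact ⟨a, ha, b, hb, rfl⟩

lemma thick_compact (lam r : ℝ) {A : Set R3} (hA : IsCompact A) : IsCompact (thick lam r A) := by
  rw [thick_eq]
  exact (hA.smul lam).add (EB_compact r)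

lemma thick_convex (lam r : ℝ) {A : Set R3} (hA : Convex ℝ A) : Convex ℝ (thick lam r A) := by
  rw [thick_eq]
  exact (hA.smul lam).add (EB_convex r)

lemma thick_balls (lam r : ℝ) (A : Set R3) : UnionOfBalls r (thick lam r A) := by
  rintro _ ⟨a, ha, b, hb, rfl⟩
  refine ⟨lam • a, ?_, ?_⟩
  · simpa [Ball, EB] using hb
  · intro q hq
    refine ⟨a, ha, q - lam • a, ?_, by abel⟩
    simpa [Ball, EB] using hq

/-- Radstroem cancellation. -/
lemma cancel {B : Set R3} (hB : IsClosed B) (hc : Convex ℝ B) (r : ℝ) {p : R3}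
    (h : ∀ b ∈ EB r, ∃ c ∈ B, ∃ d ∈ EB r, p + b = c + d) : p ∈ B := by
  by_contra hp
  obtain ⟨f, u, hfB, hfp⟩ := geometric_hahn_banach_closed_point hc hB hp
  obtain ⟨b, hb, hmax⟩ := (EB_compact r).exists_isMaxOn ⟨0, zero_mem_EB r⟩
    f.continuous.continuousOn
  obtain ⟨c, hcB, d, hd, e⟩ := h b hb
  have h1 : f d ≤ f b := hmax hd
  have h2 := hfB c hcB
  have h3 : f p + f b = f c + f d := by rw [← map_add, ← map_add, e]
  linarith

lemma copy_thick {lam r : ℝ} (hlam : 0 < lam) {A B : Set R3} (hB : IsCompact B)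
    (hc : Convex ℝ B) (ρ : SO3) (x : R3) :
    IsCopy (thick lam r A) (thick lam r B) ρ x ↔ IsCopy A B ρ (lam⁻¹ • x) := by
  have hl : lam ≠ 0 := hlam.ne'
  constructor
  · intro h s hs
    have hcl : IsClosed (lam • B) := (hB.smul lam).isClosed
    have hcv : Convex ℝ (lam • B) := hc.smul lam
    have hp : ρ.1.mulVec (lam • s) + x ∈ lam • B := by
      apply cancel hcl hcv r
      intro b hb
      obtain ⟨c, hcB, d, hd, e⟩ := h (lam • s + ρ.1.transpose.mulVec b)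
        ⟨s, hs, _, rotT_EB ρ hb, rfl⟩
      refine ⟨lam • c, ⟨c, hcB, rfl⟩, d, hd, ?_⟩
      rw [Matrix.mulVec_add, rot_transpose] at e
      rw [← e]; abel
    obtain ⟨k, hk, e⟩ := hp
    have e' : ρ.1.mulVec s + lam⁻¹ • x = k := by
      have h1 : lam • k = lam • ρ.1.mulVec s + x := by
        rw [← Matrix.mulVec_smul]; exact e
      have h2 : k = lam⁻¹ • (lam • k) := by rw [smul_smul, inv_mul_cancel₀ hl, one_smul]
      rw [h2, h1, smul_add, smul_smul, inv_mul_cancel₀ hl, one_smul]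
    rw [e']; exact hk
  · rintro h _ ⟨a, ha, b, hb, rfl⟩
    refine ⟨_, h a ha, _, rot_EB ρ hb, ?_⟩
    rw [Matrix.mulVec_add, Matrix.mulVec_smul, smul_add, smul_smul, mul_inv_cancel₀ hl, one_smul]
    abel

/-! ### Smoothness -/

lemma supp_eq {r : ℝ} (hr : 0 < r) {S : Set R3} {p c u : R3} (hp : p ∈ Ball c r)
    (hc : Ball c r ⊆ S) (hu : u ≠ 0) (hsup : ∀ s ∈ S, ∑ i, u i * s i ≤ ∑ i, u i * p i) :
    ∃ n : ℝ, 0 < n ∧ u = n • (p - c) := by
  have hpos : 0 < ∑ i, u i ^ 2 := by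
    obtain ⟨k, hk⟩ : ∃ k, u k ≠ 0 := by
      by_contra hcon
      push Not at hcon
      exact hu (funext hcon)
    exact Finset.sum_pos' (fun i _ => sq_nonneg _) ⟨k, Finset.mem_univ k, by positivity⟩
  set n := Real.sqrt (∑ i, u i ^ 2) with hn
  have hn0 : 0 < n := Real.sqrt_pos.mpr hpos
  have hn2 : n ^ 2 = ∑ i, u i ^ 2 := Real.sq_sqrt hpos.le
  have hq : c + (r / n) • u ∈ Ball c r := by
    simp only [Ball, mem_ofPred_eq, Pi.add_apply, Pi.smul_apply, smul_eq_mul, add_sub_cancel_left,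
      mul_pow]
    rw [← Finset.mul_sum, ← hn2]
    have : (r ^ 2 / n ^ 2) * n ^ 2 = r ^ 2 := by field_simp
    rw [div_pow, this]
  have h1 := hsup _ (hc hq)
  simp only [Fin.sum_univ_three, Pi.add_apply, Pi.smul_apply, smul_eq_mul] at h1 hn2
  simp only [Ball, mem_ofPred_eq, Fin.sum_univ_three] at hp
  have h2 : r / n * n ^ 2 = r * n := by field_simp
  have h3 : r * n ≤ u 0 * (p 0 - c 0) + u 1 * (p 1 - c 1) + u 2 * (p 2 - c 2) := by
    rw [← h2, hn2]; nlinarith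
  have h4 : (n * (p 0 - c 0) - r * u 0) ^ 2 + (n * (p 1 - c 1) - r * u 1) ^ 2
      + (n * (p 2 - c 2) - r * u 2) ^ 2 ≤ 0 := by
    have e : (n * (p 0 - c 0) - r * u 0) ^ 2 + (n * (p 1 - c 1) - r * u 1) ^ 2
      + (n * (p 2 - c 2) - r * u 2) ^ 2
      = n ^ 2 * ((p 0 - c 0) ^ 2 + (p 1 - c 1) ^ 2 + (p 2 - c 2) ^ 2)
        - 2 * (n * r) * (u 0 * (p 0 - c 0) + u 1 * (p 1 - c 1) + u 2 * (p 2 - c 2))
        + r ^ 2 * (u 0 ^ 2 + u 1 ^ 2 + u 2 ^ 2) := by ring
    rw [e, ← hn2]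
    have h5 := mul_le_mul_of_nonneg_left hp (sq_nonneg n)
    have h6 := mul_le_mul_of_nonneg_left h3 (by positivity : 0 ≤ 2 * (n * r))
    nlinarith
  have q0 := sq_nonneg (n * (p 0 - c 0) - r * u 0)
  have q1 := sq_nonneg (n * (p 1 - c 1) - r * u 1)
  have q2 := sq_nonneg (n * (p 2 - c 2) - r * u 2)
  have z : ∀ y : ℝ, y ^ 2 = 0 → y = 0 := fun y hy => pow_eq_zero_iff two_ne_zero |>.mp hy
  have e0 := z (n * (p 0 - c 0) - r * u 0) (by linarith)
  have e1 := z (n * (p 1 - c 1) - r * u 1) (by linarith)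
  have e2 := z (n * (p 2 - c 2) - r * u 2) (by linarith)
  refine ⟨n / r, by positivity, ?_⟩
  ext k
  simp only [Pi.smul_apply, Pi.sub_apply, smul_eq_mul]
  fin_cases k
  · simp only [Fin.zero_eta]
    field_simp
    linarith
  · simp only [Fin.mk_one]
    field_simp
    linarith
  · simp only [Fin.reduceFinMk]
    field_simp
    linarith

lemma smooth_of_balls {r : ℝ} (hr : 0 < r) {S : Set R3} (h : UnionOfBalls r S) : Smooth S := by
  intro p hp u v hu hv hsu hsv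
  obtain ⟨c, hpc, hcS⟩ := h p hp
  obtain ⟨n, hn, e1⟩ := supp_eq hr hpc hcS hu hsu
  obtain ⟨m, hm, e2⟩ := supp_eq hr hpc hcS hv hsv
  refine ⟨m / n, by positivity, ?_⟩
  rw [e2, e1, smul_smul, div_mul_cancel₀ _ hn.ne']

/-! ### The bodies -/

lemma SS_sub : SS ⊆ EB 6 := by
  apply closure_minimal _ (EB_closed 6)
  apply convexHull_min _ (EB_convex 6)
  rintro _ ⟨i, σ, hσ, rfl⟩
  simp only [EB, mem_ofPred_eq, Fin.sum_univ_three]
  have h : ∀ k, (hh i σ k) ^ 2 ≤ 3 ^ 2 := fun k => by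
    rw [← sq_abs]
    have := hh_abs i hσ k
    gcongr
  have h0 := h 0
  have h1 := h 1
  have h2 := h 2
  linarith

lemma KK_sub : KK ⊆ EB 6 := by
  intro x hx
  simp only [EB, mem_ofPred_eq, Fin.sum_univ_three]
  have h : ∀ k, (x k) ^ 2 ≤ 3 ^ 2 := fun k => by
    rw [← sq_abs]
    have := hx.1 k
    gcongr
  have h0 := h 0
  have h1 := h 1
  have h2 := h 2
  linarith

lemma zero_mem_SS : (0 : R3) ∈ SS := by
  have h := SS_convex.sum_mem (t := Finset.univ) (w := ![14 / 42, 15 / 42, 13 / 42])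
    (z := fun i : Fin 3 => hh i 0) (by
      intro i _; fin_cases i <;> simp <;> norm_num) (by
      simp [Fin.sum_univ_three]; norm_num) (fun i _ => hh_mem i (by norm_num))
  have e : (∑ i : Fin 3, (![14 / 42, 15 / 42, 13 / 42] : Fin 3 → ℝ) i • hh i 0) = 0 := by
    ext k
    simp only [Fin.sum_univ_three, Pi.add_apply, Pi.smul_apply, smul_eq_mul, Pi.zero_apply]
    fin_cases k
    · simp [hh, cu]; norm_num
    · simp [hh, su]; norm_num
    · simp [hh]
  rw [e] at h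
  exact h

lemma zero_mem_KK : (0 : R3) ∈ KK := by
  refine ⟨fun k => by simp, ?_⟩
  intro i a v _ _ hv
  have h := abs_le.mp (GG_abs_le v)
  have h' := abs_le.mp hv
  simp only [Pi.zero_apply, mul_zero, add_zero, zero_sub, zero_add]
  nlinarith [h.1, h.2, abs_nonneg v]

lemma mgap_pos (ρ : SO3) (hρ : ρ ≠ 1) : 0 < mgap ρ.1 := by
  by_contra hcon
  apply hρ
  obtain ⟨F, hF⟩ := exists_frame ρ.1 ρ.2
  rw [mgap_eq hF] at hcon
  obtain ⟨h1, h2, h3, h4, h5, h6, h7, h8, h9⟩ := hF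
  have g1 := a1_le F
  have g2 := b2_le F
  have g3 := rr_nonneg F
  unfold gap at hcon
  have a1 : F.a1 = 1 := by linarith
  have b2 : F.b2 = 1 := by linarith
  have r0 : rr F = 0 := by linarith
  have r1 := rr_sq F
  rw [r0] at r1
  have z : ∀ y : ℝ, y ^ 2 ≤ 0 → y = 0 := fun y hy =>
    pow_eq_zero_iff two_ne_zero |>.mp (le_antisymm hy (sq_nonneg y))
  have a2 : F.a2 = 0 := z _ (by nlinarith [sq_nonneg F.a3, sq_nonneg F.b3])
  have a3 : F.a3 = 0 := z _ (by nlinarith [sq_nonneg F.a2, sq_nonneg F.b3])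
  have b3 : F.b3 = 0 := z _ (by nlinarith [sq_nonneg F.a2, sq_nonneg F.a3])
  have b1 : F.b1 = 0 := by
    have := F.hab
    rw [a1, a2, a3] at this
    linarith
  have c1 : F.c1 = 0 := by rw [F.hc1, a2, a3]; ring
  have c2 : F.c2 = 0 := by rw [F.hc2, a3, b3]; ring
  have c3 : F.c3 = 1 := by rw [F.hc3, a1, a2, b2]; ring
  apply Subtype.ext
  ext i j
  show ρ.1 i j = (1 : Matrix (Fin 3) (Fin 3) ℝ) i j
  fin_cases i <;> fin_cases j <;> simp [← h1, ← h2, ← h3, ← h4, ← h5, ← h6, ← h7, ← h8, ← h9,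
    a1, a2, a3, b1, b2, b3, c1, c2, c3]

/-- For all `r, ε > 0` there are convex bodies `S` and `K` between the balls of radius `r` and
`r + ε`, both smooth and both unions of balls of radius `r`, such that `K` is `S`-Kakeya and no
copy `(1, x₀)` in `K` can be rotated within `K` into any copy `(ρ, x₁)` with `ρ ≠ 1`. -/
theorem result : ∀ r ε : ℝ, 0 < r → 0 < ε → ∃ S K : Set R3,
    IsConvexBody S ∧ IsConvexBody K ∧
    Ball 0 r ⊆ S ∧ S ⊆ Ball 0 (r + ε) ∧ Ball 0 r ⊆ K ∧ K ⊆ Ball 0 (r + ε) ∧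
    UnionOfBalls r S ∧ UnionOfBalls r K ∧ Smooth S ∧ Smooth K ∧
    IsKakeya S K ∧
    (∀ (ρ : SO3) (x₀ x₁ : R3), IsCopy S K 1 x₀ → IsCopy S K ρ x₁ →
      (CanBeRotated S K 1 x₀ ρ x₁ ↔ ρ = 1)) ∧
    ¬ KakeyaRotationProperty S := by
  intro r ε hr hε
  set lam := ε / 6 with hlam
  have hl : 0 < lam := by positivity
  set S := thick lam r SS with hS
  set K := thick lam r KK with hK
  have hSB : IsConvexBody S := ⟨⟨_, 0, zero_mem_SS, 0, zero_mem_EB r, rfl⟩,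
    thick_compact lam r SS_compact, thick_convex lam r SS_convex⟩
  have hKB : IsConvexBody K := ⟨⟨_, 0, zero_mem_KK, 0, zero_mem_EB r, rfl⟩,
    thick_compact lam r KK_compact, thick_convex lam r KK_convex⟩
  have inner : ∀ A : Set R3, (0 : R3) ∈ A → Ball 0 r ⊆ thick lam r A := by
    intro A hA b hb
    rw [Ball_zero] at hb
    exact ⟨0, hA, b, hb, by simp⟩
  have outer : ∀ A : Set R3, A ⊆ EB 6 → thick lam r A ⊆ Ball 0 (r + ε) := by
    rintro A hA _ ⟨a, ha, b, hb, rfl⟩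
    rw [Ball_zero]
    apply EB_add hε.le hr.le _ hb
    have h6 := hA ha
    simp only [EB, mem_ofPred_eq, Fin.sum_univ_three, Pi.smul_apply, smul_eq_mul, mul_pow]
      at h6 ⊢
    have h7 := mul_le_mul_of_nonneg_left h6 (sq_nonneg lam)
    have h8 : lam ^ 2 * 6 ^ 2 = ε ^ 2 := by rw [hlam]; ring
    nlinarith
  have hKak : IsKakeya S K := by
    intro ρ
    obtain ⟨x, hx⟩ := kakeya_KK ρ.1 ρ.2
    refine ⟨lam • x, (copy_thick hl KK_compact KK_convex ρ _).mpr ?_⟩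
    rw [smul_smul, inv_mul_cancel₀ hl.ne', one_smul]
    exact hx
  have hiff : ∀ (ρ : SO3) (x₀ x₁ : R3), IsCopy S K 1 x₀ → IsCopy S K ρ x₁ →
      (CanBeRotated S K 1 x₀ ρ x₁ ↔ ρ = 1) := by
    intro ρ x₀ x₁ hc0 hc1
    constructor
    · rintro ⟨γ, δ, hγ, hδ, h0, -, h1, -, hc⟩
      by_contra hne
      refine no_path (fun t => (γ t).1) (fun t => lam⁻¹ • δ t) (continuous_subtype_val.comp hγ)
        (by fun_prop) (fun t => (γ t).2)
        (fun t => (copy_thick hl KK_compact KK_convex (γ t) (δ t)).mp (hc t)) ?_ ?_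
      · rw [h0]; rfl
      · rw [h1]
        exact mgap_pos ρ hne
    · rintro rfl
      refine ⟨fun _ => 1, fun t => (1 - (t : ℝ)) • x₀ + (t : ℝ) • x₁, continuous_const,
        by fun_prop, rfl, by simp, rfl, by simp, ?_⟩
      intro t s hs
      have h1 := hKB.2.2 (hc0 s hs) (hc1 s hs) (by linarith [t.2.2] : 0 ≤ 1 - (t : ℝ)) t.2.1
        (by ring)
      have e : (1 - (t : ℝ)) • ((1 : SO3).1.mulVec s + x₀) + (t : ℝ) • ((1 : SO3).1.mulVec s + x₁)
          = (1 : SO3).1.mulVec s + ((1 - (t : ℝ)) • x₀ + (t : ℝ) • x₁) := by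
        rw [smul_add, smul_add]
        ext k
        simp only [Pi.add_apply, Pi.smul_apply, smul_eq_mul]
        ring
      rw [e] at h1
      exact h1
  refine ⟨S, K, hSB, hKB, inner _ zero_mem_SS, outer _ SS_sub, inner _ zero_mem_KK,
    outer _ KK_sub, thick_balls _ _ _, thick_balls _ _ _, smooth_of_balls hr (thick_balls _ _ _),
    smooth_of_balls hr (thick_balls _ _ _), hKak, hiff, ?_⟩
  intro h
  -- rotation by a right angle about the third axis
  let R : Matrix (Fin 3) (Fin 3) ℝ := !![0, -1, 0; 1, 0, 0; 0, 0, 1]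
  have hR : R ∈ Matrix.specialOrthogonalGroup (Fin 3) ℝ := by
    rw [Matrix.mem_specialOrthogonalGroup_iff]
    refine ⟨(Matrix.mem_orthogonalGroup_iff (Fin 3) ℝ).mpr ?_, ?_⟩
    · ext i j
      fin_cases i <;> fin_cases j <;>
        simp [R, Matrix.mul_apply, Fin.sum_univ_three]
    · simp [R, Matrix.det_fin_three]
  obtain ⟨x₀, hx₀⟩ := hKak 1
  obtain ⟨x₁, hx₁⟩ := hKak ⟨R, hR⟩
  have h1 := (hiff ⟨R, hR⟩ x₀ x₁ hx₀ hx₁).mp (h K hKB hKak 1 x₀ ⟨R, hR⟩ x₁ hx₀ hx₁)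
  have h2 : R = 1 := congrArg Subtype.val h1
  have h3 := congrFun (congrFun h2 0) 0
  simp [R] at h3

end Pool.Agent.Results.MP_f4a04c_gt.NearBalls
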